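import Pool.Agent.DMP.Lower
import Pool.Agent.DMP.Upper
import Pool.Agent.DMP.FiveMain

set_option autoImplicit false

open Filter Topology DMP

namespace Pool.Agent.Results.MP_d898df_co.Exact

/-- The exact value of `h(n,5)` for every `n`, and `h(n,5)/n → 7/6`. -/
theorem result :
    (∀ n : ℕ, IsLeast (satEdgeCounts n 5) (h n 5)) ∧
    (∀ n : ℕ, n ≤ 4 → h n 5 = n.choose 2) ∧
    h 5 5 = 9 ∧
    h 9 5 = 11 ∧
    (∀ n : ℕ, 6 ≤ n → n ≠ 9 → h n 5 = n + n / 6 + min 2 (n % 6)) ∧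
    Tendsto (fun n : ℕ => (h n 5 : ℝ) / n) atTop (𝓝 (7 / 6)) := by
  have hsmall : ∀ n : ℕ, n ≤ 4 → IsLeast (satEdgeCounts n 5) (n.choose 2) :=
    fun n hn => isLeast_small hn
  have hfive : IsLeast (satEdgeCounts 5 5) 9 := isLeast_five
  have hnine : IsLeast (satEdgeCounts 9 5) 11 := by
    refine ⟨exists_saturated_nine, ?_⟩
    rintro m ⟨G, hG, rfl⟩
    exact lower_bound_nine hG (by simp)
  have hbig : ∀ n : ℕ, 6 ≤ n → n ≠ 9 →
      IsLeast (satEdgeCounts n 5) (n + n / 6 + min 2 (n % 6)) := by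
    intro n hn h9
    refine ⟨exists_saturated n hn, ?_⟩
    rintro m ⟨G, hG, rfl⟩
    have := lower_bound hG (by simpa using hn) (by simpa using h9)
    simpa using this
  have heq : ∀ n v : ℕ, IsLeast (satEdgeCounts n 5) v → h n 5 = v := by
    intro n v hv
    exact hv.csInf_eq
  have hleast : ∀ n : ℕ, IsLeast (satEdgeCounts n 5) (h n 5) := by
    intro n
    have hex : ∃ v, IsLeast (satEdgeCounts n 5) v := by
      by_cases h4 : n ≤ 4
      · exact ⟨_, hsmall n h4⟩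
      by_cases h5 : n = 5
      · subst h5; exact ⟨_, hfive⟩
      by_cases h9 : n = 9
      · subst h9; exact ⟨_, hnine⟩
      exact ⟨_, hbig n (by omega) h9⟩
    obtain ⟨v, hv⟩ := hex
    rw [heq n v hv]
    exact hv
  have hval : ∀ n : ℕ, 6 ≤ n → n ≠ 9 → h n 5 = n + n / 6 + min 2 (n % 6) :=
    fun n hn h9 => heq n _ (hbig n hn h9)
  have h9' : h 9 5 = 11 := heq 9 _ hnine
  refine ⟨hleast, fun n hn => heq n _ (hsmall n hn), heq 5 _ hfive, h9', hval, ?_⟩
  have hbounds : ∀ n : ℕ, 6 ≤ n → 7 * n ≤ 6 * h n 5 ∧ 6 * h n 5 ≤ 7 * n + 12 := by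
    intro n hn
    by_cases h9 : n = 9
    · subst h9; rw [h9']; omega
    · rw [hval n hn h9]; omega
  have hlim : Tendsto (fun n : ℕ => (7 / 6 : ℝ) + 2 / (n : ℝ)) atTop (𝓝 (7 / 6)) := by
    have h1 : Tendsto (fun n : ℕ => (2 : ℝ) / (n : ℝ)) atTop (𝓝 0) :=
      tendsto_const_div_atTop_nhds_zero_nat 2
    simpa using h1.const_add (7 / 6 : ℝ)
  refine tendsto_of_tendsto_of_tendsto_of_le_of_le' tendsto_const_nhds hlim ?_ ?_
  · filter_upwards [eventually_ge_atTop 6] with n hn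
    have hpos : (0 : ℝ) < n := by
      have : 0 < n := by omega
      exact_mod_cast this
    have h1 : (7 * n : ℝ) ≤ 6 * (h n 5 : ℝ) := by exact_mod_cast (hbounds n hn).1
    rw [le_div_iff₀ hpos]
    linarith
  · filter_upwards [eventually_ge_atTop 6] with n hn
    have hpos : (0 : ℝ) < n := by
      have : 0 < n := by omega
      exact_mod_cast this
    have h1 : 6 * (h n 5 : ℝ) ≤ 7 * n + 12 := by exact_mod_cast (hbounds n hn).2
    rw [div_le_iff₀ hpos, add_mul, div_mul_cancel₀ _ hpos.ne']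
    linarith

end Pool.Agent.Results.MP_d898df_co.Exact
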